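import Pool.Agent.Lib.MP_10f401_gt.Defs

/-!
# The minimal cofinality of an ultrapower of `ℕ`, and the Menger property for monotone covers
-/

set_option autoImplicit false

namespace Pool.Agent.Lib.MP_10f401_gt

open Set Filter
open scoped Cardinal

/-- `mcf`: the least cardinality of a family `F` of functions `ℕ → ℕ` which is cofinal modulo
some free ultrafilter `U` on `ℕ`, i.e. every `g : ℕ → ℕ` is bounded on a set in `U` by some
member of `F` (the minimal cofinality of an ultrapower of `ℕ`). -/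
noncomputable def mcf : Cardinal.{0} :=
  sInf {c | ∃ (U : Ultrafilter ℕ) (F : Set (ℕ → ℕ)), (U : Filter ℕ) ≤ atTop ∧
    (∀ g : ℕ → ℕ, ∃ f ∈ F, ∀ᶠ n in (U : Filter ℕ), g n ≤ f n) ∧ #F = c}

/-- The Menger property of the subset `S` of `Z` for sequences of increasing countable covers by
open subsets of `Z`. -/
def MBS {Z : Type*} [TopologicalSpace Z] (S : Set Z) : Prop :=
  ∀ O : ℕ → ℕ → Set Z, (∀ n m, IsOpen (O n m)) → (∀ n, Monotone (O n)) →
    (∀ n, ∀ z ∈ S, ∃ m, z ∈ O n m) → ∃ g : ℕ → ℕ, ∀ z ∈ S, ∃ n, z ∈ O n (g n)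

/-- Families of less than `mcf` functions are bounded modulo every free ultrafilter. -/
theorem exists_bound_of_lt_mcf {ι : Type} (h : #ι < mcf) (U : Ultrafilter ℕ)
    (hU : (U : Filter ℕ) ≤ atTop) (f : ι → ℕ → ℕ) :
    ∃ g : ℕ → ℕ, ∀ i, ∀ᶠ n in (U : Filter ℕ), f i n ≤ g n := by
  by_contra hcon
  push Not at hcon
  have h1 : mcf ≤ #(range f) := by
    apply csInf_le'
    refine ⟨U, range f, hU, fun g => ?_, rfl⟩
    obtain ⟨i, hi⟩ := hcon g
    exact ⟨f i, ⟨i, rfl⟩, hi.mono fun n hn => hn.le⟩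
  exact absurd (h1.trans Cardinal.mk_range_le) (not_le.2 h)

theorem mcf_mem : ∃ (U : Ultrafilter ℕ) (F : Set (ℕ → ℕ)), (U : Filter ℕ) ≤ atTop ∧
    (∀ g : ℕ → ℕ, ∃ f ∈ F, ∀ᶠ n in (U : Filter ℕ), g n ≤ f n) ∧ #F = mcf := by
  have hne : {c : Cardinal.{0} | ∃ (U : Ultrafilter ℕ) (F : Set (ℕ → ℕ)), (U : Filter ℕ) ≤ atTop ∧
      (∀ g : ℕ → ℕ, ∃ f ∈ F, ∀ᶠ n in (U : Filter ℕ), g n ≤ f n) ∧ #F = c}.Nonempty :=
    ⟨_, Ultrafilter.of atTop, Set.univ, Ultrafilter.of_le atTop, fun g => ⟨g, mem_univ g,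
      Eventually.of_forall fun n => le_rfl⟩, rfl⟩
  exact csInf_mem hne

theorem aleph0_lt_mcf : ℵ₀ < mcf := by
  by_contra h
  rw [not_lt] at h
  obtain ⟨U, F, hU, hF, hc⟩ := mcf_mem
  have hFc : F.Countable := by
    rw [← Cardinal.le_aleph0_iff_set_countable, hc]
    exact h
  have hne : F.Nonempty := by
    obtain ⟨f, hf, -⟩ := hF fun _ => 0
    exact ⟨f, hf⟩
  obtain ⟨f, rfl⟩ := hFc.exists_eq_range hne
  obtain ⟨_, ⟨i, rfl⟩, hi⟩ := hF fun n => (Finset.range (n + 1)).sup (fun i => f i n) + 1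
  have h1 : ∀ᶠ n in (U : Filter ℕ), i ≤ n := hU (eventually_ge_atTop i)
  obtain ⟨n, hn, hin⟩ := (hi.and h1).exists
  have h2 : f i n ≤ (Finset.range (n + 1)).sup (fun i => f i n) :=
    Finset.le_sup (f := fun i => f i n) (Finset.mem_range.2 (Nat.lt_succ_of_le hin))
  omega

/-! ### Simple permanence properties -/

/-- In the Menger property the points are covered infinitely often. -/
theorem MBS.frequently {Z : Type*} [TopologicalSpace Z] {S : Set Z} (h : MBS S)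
    (O : ℕ → ℕ → Set Z) (hO : ∀ n m, IsOpen (O n m)) (hm : ∀ n, Monotone (O n))
    (hc : ∀ n, ∀ z ∈ S, ∃ m, z ∈ O n m) :
    ∃ g : ℕ → ℕ, ∀ z ∈ S, ∀ N, ∃ n, N ≤ n ∧ z ∈ O n (g n) := by
  have h1 : ∀ N, ∃ g : ℕ → ℕ, ∀ z ∈ S, ∃ n, z ∈ O (n + N) (g n) := fun N =>
    h (fun n m => O (n + N) m) (fun n m => hO _ _) (fun n => hm _) (fun n => hc _)
  choose G hG using h1
  refine ⟨fun n => (Finset.range (n + 1)).sup fun N => G N (n - N), fun z hz N => ?_⟩
  obtain ⟨n, hn⟩ := hG N z hz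
  refine ⟨n + N, Nat.le_add_left _ _, hm _ ?_ hn⟩
  have h2 := Finset.le_sup (f := fun M => G M (n + N - M))
    (Finset.mem_range.2 (show N < n + N + 1 by omega))
  simp only [Nat.add_sub_cancel] at h2
  exact h2

/-- Continuous images. -/
theorem MBS.image {Z W : Type*} [TopologicalSpace Z] [TopologicalSpace W] {S : Set Z} {T : Set W}
    (h : MBS S) {f : Z → W} (hf : Continuous f) (hT : ∀ w ∈ T, ∃ z ∈ S, f z = w)
    (hS : ∀ z ∈ S, f z ∈ T) : MBS T := by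
  intro O hO hm hc
  obtain ⟨g, hg⟩ := h (fun n m => f ⁻¹' O n m) (fun n m => (hO n m).preimage hf)
    (fun n a b hab => preimage_mono (hm n hab)) (fun n z hz => hc n _ (hS z hz))
  refine ⟨g, fun w hw => ?_⟩
  obtain ⟨z, hz, rfl⟩ := hT w hw
  exact hg z hz

/-- Countable unions. -/
theorem MBS.iUnion {Z ι : Type*} [TopologicalSpace Z] [Countable ι] {A : ι → Set Z}
    (h : ∀ i, MBS (A i)) : MBS (⋃ i, A i) := by
  intro O hO hm hc
  have h1 : ∀ i, ∃ g : ℕ → ℕ, ∀ z ∈ A i, ∀ N, ∃ n, N ≤ n ∧ z ∈ O n (g n) := fun i =>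
    (h i).frequently O hO hm fun n z hz => hc n z (mem_iUnion.2 ⟨i, hz⟩)
  choose G hG using h1
  obtain ⟨e, he⟩ := exists_injective_nat ι
  refine ⟨fun n => ∑ᶠ i ∈ {i | e i ≤ n}, G i n, fun z hz => ?_⟩
  obtain ⟨i, hi⟩ := mem_iUnion.1 hz
  obtain ⟨n, hn, hzn⟩ := hG i z hi (e i)
  refine ⟨n, hm n ?_ hzn⟩
  have hfin : {i | e i ≤ n}.Finite := by
    refine Finite.of_finite_image ((finite_Iic n).subset ?_) he.injOn
    rintro _ ⟨j, hj, rfl⟩
    exact hj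
  change G i n ≤ ∑ᶠ i ∈ {i | e i ≤ n}, G i n
  rw [finsum_mem_eq_finite_toFinset_sum _ hfin]
  exact Finset.single_le_sum (f := fun i => G i n) (fun _ _ => Nat.zero_le _)
    (hfin.mem_toFinset.2 hn)

end Pool.Agent.Lib.MP_10f401_gt
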