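import Pool.Agent.Lib.MP_10f401_gt.Neg.Main

/-!
# Translation to the Menger property, products and Luzin sets
-/

set_option autoImplicit false

namespace Pool.Agent.Lib.MP_10f401_gt

open Set Filter Topology
open scoped Cardinal

/-- Subspaces. -/
theorem MBS.of_isInducing {W Z : Type*} [TopologicalSpace W] [TopologicalSpace Z] {e : W → Z}
    (he : IsInducing e) {S : Set W} (h : MBS (e '' S)) : MBS S := by
  intro O hO hm hc
  have hsub : ∀ n m w, w ∈ O n m → e w ∈ ⋃₀ {V : Set Z | IsOpen V ∧ e ⁻¹' V ⊆ O n m} := by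
    intro n m w hw
    obtain ⟨V, hV, hVO⟩ := he.isOpen_iff.1 (hO n m)
    refine ⟨V, ⟨hV, hVO.le⟩, ?_⟩
    have : w ∈ e ⁻¹' V := by rw [hVO]; exact hw
    exact this
  obtain ⟨g, hg⟩ := h (fun n m => ⋃₀ {V : Set Z | IsOpen V ∧ e ⁻¹' V ⊆ O n m})
    (fun n m => isOpen_sUnion fun V hV => hV.1)
    (fun n a b hab => sUnion_mono fun V hV => ⟨hV.1, hV.2.trans (hm n hab)⟩) (by
      rintro n _ ⟨w, hw, rfl⟩
      obtain ⟨m, hmw⟩ := hc n w hw
      exact ⟨m, hsub n m w hmw⟩)
  refine ⟨g, fun w hw => ?_⟩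
  obtain ⟨n, V, hV, hwV⟩ := hg (e w) (mem_image_of_mem e hw)
  exact ⟨n, hV.2 hwV⟩

theorem IsMenger.mbs {Z : Type*} [TopologicalSpace Z] (h : IsMenger Z) : MBS (univ : Set Z) := by
  intro O hO hm hc
  obtain ⟨F, hF, hu⟩ := h (fun n => range (O n)) (fun n => ⟨by
    rintro _ ⟨m, rfl⟩
    exact hO n m, by
    rw [eq_univ_iff_forall]
    intro z
    obtain ⟨m, hmz⟩ := hc n z (mem_univ z)
    exact ⟨O n m, ⟨m, rfl⟩, hmz⟩⟩)
  have h1 : ∀ n, ∃ M, ∀ u ∈ F n, u ⊆ O n M := by
    intro n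
    have h2 : ∀ u ∈ F n, ∃ m, O n m = u := fun u hu => (hF n).1 hu
    choose! f hf using h2
    obtain ⟨M, hM⟩ := ((hF n).2.image f).bddAbove
    refine ⟨M, fun u hu => ?_⟩
    rw [← hf u hu]
    exact hm n (hM (mem_image_of_mem f hu))
  choose g hg using h1
  refine ⟨g, fun z _ => ?_⟩
  have hz : z ∈ ⋃ n, ⋃₀ F n := by rw [hu]; exact mem_univ z
  obtain ⟨n, hn⟩ := mem_iUnion.1 hz
  obtain ⟨u, hun, hzu⟩ := hn
  exact ⟨n, hg n u hun hzu⟩

theorem MBS.isMenger {Z : Type*} [TopologicalSpace Z] [SecondCountableTopology Z]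
    (h : MBS (univ : Set Z)) : IsMenger Z := by
  intro U hU
  have h1 : ∀ n, ∃ f : ℕ → Set (Set Z), (∀ m, f m ⊆ U n ∧ (f m).Finite) ∧ Monotone f ∧
      ∀ z, ∃ m, z ∈ ⋃₀ f m := by
    intro n
    obtain ⟨T, hTc, hTU, hT⟩ := TopologicalSpace.isOpen_sUnion_countable (U n) (hU n).1
    obtain ⟨e, he⟩ := countable_iff_exists_injOn.1 hTc
    refine ⟨fun m => {u | u ∈ T ∧ e u ≤ m}, fun m => ⟨fun u hu => hTU hu.1, ?_⟩, ?_, ?_⟩
    · refine Finite.of_finite_image (f := e) ((finite_Iic m).subset ?_)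
        (he.mono fun u hu => hu.1)
      rintro _ ⟨u, hu, rfl⟩
      exact hu.2
    · intro a b hab u hu
      exact ⟨hu.1, hu.2.trans hab⟩
    · intro z
      have hz : z ∈ ⋃₀ T := by rw [hT, (hU n).2]; exact mem_univ z
      obtain ⟨u, huT, hzu⟩ := hz
      exact ⟨e u, u, ⟨huT, le_rfl⟩, hzu⟩
  choose f hf1 hf2 hf3 using h1
  obtain ⟨g, hg⟩ := h (fun n m => ⋃₀ f n m)
    (fun n m => isOpen_sUnion fun u hu => (hU n).1 u ((hf1 n m).1 hu))
    (fun n a b hab => sUnion_mono (hf2 n hab)) (fun n z _ => hf3 n z)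
  refine ⟨fun n => f n (g n), fun n => hf1 n (g n), ?_⟩
  rw [eq_univ_iff_forall]
  intro z
  obtain ⟨n, hn⟩ := hg z (mem_univ z)
  exact mem_iUnion.2 ⟨n, hn⟩

theorem IsMenger.mbs_subtype {Z : Type*} [TopologicalSpace Z] {S : Set Z} (h : IsMenger S) :
    MBS S :=
  h.mbs.image continuous_subtype_val (fun w hw => ⟨⟨w, hw⟩, mem_univ _, rfl⟩) fun z _ => z.2

/-- Finite powers of the union of a family. -/
theorem mbs_pow {Z I : Type} [TopologicalSpace Z] {A : I → Set Z} (hA : FinProd A)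
    (h : #I < mcf) (k : ℕ) : MBS {p : Fin k → Z | ∀ l, p l ∈ ⋃ i, A i} := by
  have h1 : FinProd fun s : Fin k → I => (Set.pi univ fun l => A (s l) : Set (Fin k → Z)) := by
    intro k' s
    have h2 := hA (k' * k) fun l => s (finProdFinEquiv.symm l).1 (finProdFinEquiv.symm l).2
    refine h2.image (f := fun z a l => z (finProdFinEquiv (a, l))) ?_ ?_ ?_
    · exact continuous_pi fun a => continuous_pi fun l => continuous_apply _
    · intro w hw
      refine ⟨fun l => w (finProdFinEquiv.symm l).1 (finProdFinEquiv.symm l).2, ?_, ?_⟩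
      · intro l _
        exact hw (finProdFinEquiv.symm l).1 (mem_univ _) (finProdFinEquiv.symm l).2 (mem_univ _)
      · funext a l
        simp
    · intro z hz a _ l _
      have h3 := hz (finProdFinEquiv (a, l)) (mem_univ _)
      simpa using h3
  have h2 : #(Fin k → I) < mcf := by
    rw [Cardinal.mk_arrow, Cardinal.lift_id, Cardinal.lift_id, Cardinal.mk_fin]
    exact Cardinal.power_nat_le_max.trans_lt (max_lt h aleph0_lt_mcf)
  have h3 := mbs_iUnion _ h2 _ _ _ rfl h1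
  convert h3 using 1
  ext p
  simp only [mem_ofPred_eq, mem_iUnion, mem_univ_pi]
  exact Classical.skolem

/-- **Theorem M'**: if all finite products of the members of a family of less than `mcf` sets of
reals are Menger, then all finite powers of the union of the family are Menger. -/
theorem menger_pow_iUnion {I : Type} (A : I → Set C) (h : #I < mcf)
    (hA : ∀ k, 1 ≤ k → ∀ i : Fin k → I, IsMenger (Set.pi univ fun j => A (i j) : Set (Fin k → C)))
    (k : ℕ) : IsMenger (Fin k → (⋃ i, A i : Set C)) := by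
  have h1 : FinProd A := by
    intro k i
    rcases Nat.eq_zero_or_pos k with rfl | hk
    · intro O hO hm hc
      obtain ⟨m, hm0⟩ := hc 0 (fun l => l.elim0) (fun l _ => l.elim0)
      refine ⟨fun _ => m, fun z hz => ⟨0, ?_⟩⟩
      rw [Subsingleton.elim z fun l => l.elim0]
      exact hm0
    · exact (hA k hk i).mbs_subtype
  have h2 := mbs_pow h1 h k
  apply MBS.isMenger
  refine MBS.of_isInducing (e := fun (p : Fin k → (⋃ i, A i : Set C)) (l : Fin k) => (p l : C))
    (IsInducing.piMap fun l => IsInducing.subtypeVal) ?_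
  convert h2 using 1
  ext p
  constructor
  · rintro ⟨q, -, rfl⟩ l
    exact (q l).2
  · intro hp
    exact ⟨fun l => ⟨p l, hp l⟩, mem_univ _, rfl⟩

/-- **Theorem M**: products of a set of size less than `mcf` with a set all of whose finite powers
are Menger. -/
theorem menger_pow_prod {X Y : Set C} (h : #X < mcf) (hY : ∀ k, 1 ≤ k → IsMenger (Fin k → Y))
    (k : ℕ) : IsMenger (Fin k → X × Y) := by
  have h1 : FinProd fun x : X => (({(x : C)} : Set C) ×ˢ Y : Set (C × C)) := by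
    intro k i
    rcases Nat.eq_zero_or_pos k with rfl | hk
    · intro O hO hm hc
      obtain ⟨m, hm0⟩ := hc 0 (fun l => l.elim0) (fun l _ => l.elim0)
      refine ⟨fun _ => m, fun z hz => ⟨0, ?_⟩⟩
      rw [Subsingleton.elim z fun l => l.elim0]
      exact hm0
    · refine (hY k hk).mbs.image (f := fun (y : Fin k → Y) (l : Fin k) => ((i l : C), (y l : C)))
        ?_ ?_ ?_
      · exact continuous_pi fun l =>
          continuous_const.prodMk (continuous_subtype_val.comp (continuous_apply l))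
      · intro w hw
        refine ⟨fun l => ⟨(w l).2, (hw l (mem_univ l)).2⟩, mem_univ _, ?_⟩
        funext l
        exact Prod.ext (mem_singleton_iff.1 (hw l (mem_univ l)).1).symm rfl
      · intro y _ l _
        exact ⟨rfl, (y l).2⟩
  have h2 := mbs_pow h1 h k
  apply MBS.isMenger
  refine MBS.of_isInducing (e := fun (p : Fin k → X × Y) (l : Fin k) =>
    (Prod.map Subtype.val Subtype.val (p l) : C × C))
    (IsInducing.piMap fun l => IsInducing.subtypeVal.prodMap IsInducing.subtypeVal) ?_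
  convert h2 using 1
  ext p
  constructor
  · rintro ⟨q, -, rfl⟩ l
    exact mem_iUnion.2 ⟨(q l).1, rfl, (q l).2.2⟩
  · intro hp
    have hp' : ∀ l, (p l).1 ∈ X ∧ (p l).2 ∈ Y := by
      intro l
      obtain ⟨x, hx1, hx2⟩ := mem_iUnion.1 (hp l)
      rw [mem_singleton_iff.1 hx1]
      exact ⟨x.2, hx2⟩
    exact ⟨fun l => (⟨(p l).1, (hp' l).1⟩, ⟨(p l).2, (hp' l).2⟩), mem_univ _, rfl⟩

theorem menger_prod {X Y : Set C} (h : #X < mcf) (hY : ∀ k, 1 ≤ k → IsMenger (Fin k → Y)) :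
    IsMenger (X × Y) := by
  have h1 := (menger_pow_prod h hY 1).mbs
  exact (h1.image (continuous_apply 0) (T := univ)
    (fun w _ => ⟨fun _ => w, mem_univ _, rfl⟩) fun _ _ => mem_univ _).isMenger

/-- A `cov(M)`-Luzin set has exactly `cov(M)` elements. -/
theorem IsLuzin.card_le {X : Set C} (hX : IsLuzin covM X) : #X ≤ covM := by
  obtain ⟨F, hF, hu, hc⟩ := covM_mem
  have h1 : X ⊆ ⋃ M : F, X ∩ (M : Set C) := by
    intro x hx
    have hxu : x ∈ ⋃₀ F := by rw [hu]; exact mem_univ x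
    obtain ⟨M, hM, hxM⟩ := hxu
    exact mem_iUnion.2 ⟨⟨M, hM⟩, hx, hxM⟩
  have h2 : ∀ M : F, #(X ∩ (M : Set C) : Set C) ≤ covM := fun M => (hX.2 M (hF M M.2)).le
  calc #X ≤ #(⋃ M : F, X ∩ (M : Set C) : Set C) := Cardinal.mk_le_mk_of_subset h1
    _ ≤ Cardinal.sum fun M : F => #(X ∩ (M : Set C) : Set C) := Cardinal.mk_iUnion_le_sum_mk
    _ ≤ Cardinal.sum fun _ : F => covM := Cardinal.sum_le_sum _ _ h2
    _ = covM * covM := by
      rw [Cardinal.sum_const, Cardinal.lift_id, Cardinal.lift_id, hc]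
    _ = covM := Cardinal.mul_eq_self aleph0_lt_covM.le

end Pool.Agent.Lib.MP_10f401_gt
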