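import Pool.Agent.Lib.MP_10f401_gt.Neg.Stage
import Pool.Agent.Lib.MP_10f401_gt.Construction

/-!
# Unions of less than `mcf` sets with Menger finite products
-/

set_option autoImplicit false

namespace Pool.Agent.Lib.MP_10f401_gt

open Set Filter
open scoped Cardinal

theorem Inv.congr {Z ι : Type} [LT ι] {A : ι → Set Z} {O : ℕ → ℕ → Set Z} {g g' : ι → ℕ → ℕ}
    {D : Set ι} (h : Inv A O g D) (hg : ∀ c ∈ D, g' c = g c) : Inv A O g' D := by
  intro K _ b c z hK N
  obtain ⟨m, hm, hl⟩ := h K b c z hK N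
  exact ⟨m, hm, fun l => by rw [hg _ (hK l).2.1]; exact hl l⟩

theorem Inv.of_Iic {Z ι : Type} [LinearOrder ι] {A : ι → Set Z} {O : ℕ → ℕ → Set Z}
    {g : ι → ℕ → ℕ} {D : Set ι} (h : ∀ a ∈ D, Inv A O g (Iic a)) : Inv A O g D := by
  intro K _ b c z hK N
  rcases isEmpty_or_nonempty K with hE | hne
  · exact ⟨N, le_rfl, fun l => (hE.false l).elim⟩
  · obtain ⟨l0, hl0⟩ := Finite.exists_max c
    exact h (c l0) (hK l0).2.1 K b c z (fun l => ⟨(hK l).1, hl0 l, (hK l).2.2⟩) N

/-- The recursion. -/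
theorem exists_inv {Z ι : Type} [TopologicalSpace Z] [LinearOrder ι] [WellFoundedLT ι]
    {A : ι → Set Z} {O : ℕ → ℕ → Set Z} (hO : ∀ n m, IsOpen (O n m)) (hm : ∀ n, Monotone (O n))
    (hc : ∀ n, ∀ z ∈ ⋃ i, A i, ∃ m, z ∈ O n m)
    (hJ : ∀ (a : ι) (β : {q : Iio a × Iio a // q.1 < q.2} ⊕ Iio a → ι)
      (γ : {q : Iio a × Iio a // q.1 < q.2} ⊕ Iio a → (ℕ → ℕ) × Bool) (j : ℕ),
      MBS (⋃ s, deco A β γ j s)) :
    ∃ g : ι → ℕ → ℕ, Inv A O g univ := by
  classical
  obtain ⟨g, hg⟩ := exists_rec (I := ι) (T := ℕ → ℕ)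
    (fun a p v => ∀ g' : ι → ℕ → ℕ, (∀ c : Iio a, g' c = p c) → g' a = v →
      Inv A O g' (Iio a) → Inv A O g' (Iic a)) (by
    intro a p
    let g0 : ι → ℕ → ℕ := fun c => if h : c < a then p ⟨c, h⟩ else 0
    have hg0 : ∀ c (h : c < a), g0 c = p ⟨c, h⟩ := fun c h => dif_pos h
    by_cases h : Inv A O g0 (Iio a)
    · obtain ⟨v, hv⟩ := stage hO hm hc a g0 h (hJ a)
      refine ⟨v, fun g' h1 h2 _ => hv g' (fun c hca => ?_) h2⟩
      rw [hg0 c hca]
      exact h1 ⟨c, hca⟩
    · refine ⟨0, fun g' h1 _ h3 => (h ?_).elim⟩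
      refine h3.congr fun c hca => ?_
      rw [hg0 c hca]
      exact (h1 ⟨c, hca⟩).symm)
  refine ⟨g, Inv.of_Iic fun a _ => ?_⟩
  induction a using WellFoundedLT.induction with
  | ind a ih =>
    exact hg a g (fun _ => rfl) rfl (Inv.of_Iic fun c hca => ih c hca (mem_univ c))

/-- The end of the argument: one function for a centred family. -/
theorem finish {Z ι : Type} [LinearOrder ι] {A : ι → Set Z} {O : ℕ → ℕ → Set Z}
    (hm : ∀ n, Monotone (O n)) (hlim : ∀ b : ι, ∃ c, b < c) (hcard : #ι < mcf)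
    {g : ι → ℕ → ℕ} (hg : Inv A O g univ) :
    ∃ G : ℕ → ℕ, ∀ z ∈ ⋃ i, A i, ∃ n, z ∈ O n (G n) := by
  let F : Filter ℕ :=
    { sets := {S | ∃ (K : Type) (_ : Finite K) (b c : K → ι) (z : K → Z),
        (∀ l, b l < c l ∧ z l ∈ A (b l)) ∧ ∃ N, ∀ m, N ≤ m → (∀ l, z l ∈ O m (g (c l) m)) → m ∈ S}
      univ_sets := ⟨Empty, inferInstance, fun l => l.elim, fun l => l.elim, fun l => l.elim,
        fun l => l.elim, 0, fun m _ _ => mem_univ m⟩
      sets_of_superset := by
        rintro S T ⟨K, hK, b, c, z, h1, N, h2⟩ hST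
        exact ⟨K, hK, b, c, z, h1, N, fun m hmN h => hST (h2 m hmN h)⟩
      inter_sets := by
        rintro S T ⟨K, hK, b, c, z, h1, N, h2⟩ ⟨K', hK', b', c', z', h1', N', h2'⟩
        refine ⟨K ⊕ K', inferInstance, Sum.elim b b', Sum.elim c c', Sum.elim z z', ?_, max N N',
          fun m hmN h => ⟨h2 m ((le_max_left _ _).trans hmN) fun l => h (Sum.inl l),
            h2' m ((le_max_right _ _).trans hmN) fun l => h (Sum.inr l)⟩⟩
        rintro (l | l)
        · exact h1 l
        · exact h1' l }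
  have hF : F.NeBot := by
    rw [neBot_iff]
    intro hbot
    have h0 : (∅ : Set ℕ) ∈ F := by rw [hbot]; exact mem_bot
    obtain ⟨K, hK, b, c, z, h1, N, h2⟩ := h0
    obtain ⟨m, hmN, hl⟩ := hg K b c z (fun l => ⟨(h1 l).1, mem_univ _, (h1 l).2⟩) N
    exact h2 m hmN hl
  have hFtop : F ≤ atTop := by
    intro S hS
    obtain ⟨N, hN⟩ := mem_atTop_sets.1 hS
    exact ⟨Empty, inferInstance, fun l => l.elim, fun l => l.elim, fun l => l.elim,
      fun l => l.elim, N, fun m hmN _ => hN m hmN⟩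
  obtain ⟨G, hG⟩ := exists_bound_of_lt_mcf hcard (Ultrafilter.of F)
    ((Ultrafilter.of_le F).trans hFtop) g
  refine ⟨G, fun z hz => ?_⟩
  obtain ⟨b, hb⟩ := mem_iUnion.1 hz
  obtain ⟨c, hbc⟩ := hlim b
  have h1 : {m | z ∈ O m (g c m)} ∈ F :=
    ⟨Unit, inferInstance, fun _ => b, fun _ => c, fun _ => z, fun _ => ⟨hbc, hb⟩, 0,
      fun m _ h => h ()⟩
  have h2 : ∀ᶠ m in (Ultrafilter.of F : Filter ℕ), z ∈ O m (g c m) := Ultrafilter.of_le F h1
  obtain ⟨m, hm1, hm2⟩ := (h2.and (hG c)).exists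
  exact ⟨m, hm m hm2 hm1⟩

theorem MBS.of_finProd {Z ι : Type} [TopologicalSpace Z] {A : ι → Set Z} (hA : FinProd A)
    (i : ι) : MBS (A i) := by
  refine (hA 1 fun _ => i).image (continuous_apply 0) (fun w hw => ?_) fun z hz => ?_
  · exact ⟨fun _ => w, fun j _ => hw, rfl⟩
  · exact hz 0 (mem_univ _)

/-- **Main theorem**: if all finite products of the members of a family of less than `mcf` sets
are Menger, then the union of the family is Menger. -/
theorem mbs_iUnion : ∀ κ : Cardinal.{0}, κ < mcf → ∀ (Z ι : Type) [TopologicalSpace Z]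
    (A : ι → Set Z), #ι = κ → FinProd A → MBS (⋃ i, A i) := by
  intro κ
  induction κ using WellFoundedLT.induction with
  | ind κ ih =>
    intro hκ Z ι _ A hι hA
    rcases le_or_gt κ ℵ₀ with hle | hunc
    · have : Countable ι := by
        rw [← Cardinal.mk_le_aleph0_iff, hι]
        exact hle
      exact MBS.iUnion fun i => MBS.of_finProd hA i
    · have hcard : #κ.ord.ToType = κ := Cardinal.mk_ord_toType κ
      obtain ⟨e⟩ : Nonempty (κ.ord.ToType ≃ ι) := Cardinal.eq.1 (hcard.trans hι.symm)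
      have hI : ∀ a : κ.ord.ToType, #(Iio a) < κ := fun a => by
        simpa using Cardinal.mk_Iio_lt a
      have hlim : ∀ b : κ.ord.ToType, ∃ c, b < c := by
        intro b
        by_contra hcon
        push Not at hcon
        have h1 : (univ : Set κ.ord.ToType) ⊆ insert b (Iio b) := fun c _ => by
          rcases (hcon c).lt_or_eq with h | h
          · exact Or.inr h
          · exact Or.inl h
        have h2 : κ ≤ #(Iio b) + 1 := by
          calc κ = #(univ : Set κ.ord.ToType) := by rw [Cardinal.mk_univ, hcard]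
            _ ≤ #(insert b (Iio b) : Set κ.ord.ToType) := Cardinal.mk_le_mk_of_subset h1
            _ ≤ #(Iio b) + 1 := Cardinal.mk_insert_le
        exact absurd h2 (not_le.2 (Cardinal.add_lt_of_lt hunc.le (hI b)
          (Cardinal.one_lt_aleph0.trans hunc)))
      have hA' : FinProd fun a => A (e a) := fun k i => hA k fun j => e (i j)
      have hJ : ∀ (a : κ.ord.ToType) (β : {q : Iio a × Iio a // q.1 < q.2} ⊕ Iio a → κ.ord.ToType)
          (γ : {q : Iio a × Iio a // q.1 < q.2} ⊕ Iio a → (ℕ → ℕ) × Bool) (j : ℕ),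
          MBS (⋃ s, deco (fun a => A (e a)) β γ j s) := by
        intro a β γ j
        have h1 : #({q : Iio a × Iio a // q.1 < q.2} ⊕ Iio a) < κ := by
          rw [Cardinal.mk_sum, Cardinal.lift_id, Cardinal.lift_id]
          refine Cardinal.add_lt_of_lt hunc.le ?_ (hI a)
          refine (Cardinal.mk_subtype_le _).trans_lt ?_
          rw [Cardinal.mk_prod]
          simp only [Cardinal.lift_id]
          exact Cardinal.mul_lt_of_lt hunc.le (hI a) (hI a)
        have h2 : #(Fin j → {q : Iio a × Iio a // q.1 < q.2} ⊕ Iio a) < κ := by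
          rw [Cardinal.mk_arrow, Cardinal.lift_id, Cardinal.lift_id, Cardinal.mk_fin]
          exact Cardinal.power_nat_le_max.trans_lt (max_lt h1 hunc)
        exact ih _ h2 (h2.trans hκ) _ _ _ rfl (finProd_deco hA' β γ j)
      intro O hO hm hc
      have hU : (⋃ a, A (e a)) = ⋃ i, A i := e.surjective.iUnion_comp A
      rw [← hU] at hc ⊢
      obtain ⟨g, hg⟩ := exists_inv hO hm hc hJ
      exact finish hm hlim (hcard.symm ▸ hκ) hg

end Pool.Agent.Lib.MP_10f401_gt
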