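import Pool.Agent.Lib.MP_10f401_gt.Neg.Defs

/-!
# One step of the recursion
-/

set_option autoImplicit false

namespace Pool.Agent.Lib.MP_10f401_gt

open Set Filter
open scoped Cardinal

/-- All finite products of members of the family `A` are Menger. -/
def FinProd {Z ι : Type} [TopologicalSpace Z] (A : ι → Set Z) : Prop :=
  ∀ (k : ℕ) (i : Fin k → ι), MBS (Set.pi univ fun j => A (i j) : Set (Fin k → Z))

/-- Points of `Z` with a function and a mark. -/
abbrev TT (Z : Type) := Z × (ℕ → ℕ) × Bool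

/-- Finite products of the family `A` decorated by constants. -/
def deco {Z ι J : Type} (A : ι → Set Z) (β : J → ι) (γ : J → (ℕ → ℕ) × Bool) (j : ℕ)
    (s : Fin j → J) : Set (Fin j → TT Z) :=
  {p | ∀ l, (p l).1 ∈ A (β (s l)) ∧ (p l).2 = γ (s l)}

theorem finProd_deco {Z ι J : Type} [TopologicalSpace Z] {A : ι → Set Z} (hA : FinProd A)
    (β : J → ι) (γ : J → (ℕ → ℕ) × Bool) (j : ℕ) : FinProd (deco A β γ j) := by
  intro k s
  have h1 := hA (k * j) fun l => β (s (finProdFinEquiv.symm l).1 (finProdFinEquiv.symm l).2)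
  refine h1.image (f := fun z a l => (z (finProdFinEquiv (a, l)), γ (s a l))) ?_ ?_ ?_
  · exact continuous_pi fun a => continuous_pi fun l =>
      (continuous_apply _).prodMk continuous_const
  · intro w hw
    refine ⟨fun l => (w (finProdFinEquiv.symm l).1 (finProdFinEquiv.symm l).2).1, ?_, ?_⟩
    · intro l _
      exact (hw (finProdFinEquiv.symm l).1 (mem_univ _) (finProdFinEquiv.symm l).2).1
    · funext a l
      refine Prod.ext ?_ (hw a (mem_univ _) l).2.symm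
      simp
  · intro z hz a _ l
    refine ⟨?_, rfl⟩
    have h2 := hz (finProdFinEquiv (a, l)) (mem_univ _)
    simpa using h2

/-- The basic condition on a decorated point. -/
def Cond {Z : Type} (O : ℕ → ℕ → Set Z) (m M : ℕ) : Set (TT Z) :=
  {q | (q.2.2 = true ∧ q.1 ∈ O m (q.2.1 m)) ∨ (q.2.2 = false ∧ q.1 ∈ O m M)}

theorem isOpen_Cond {Z : Type} [TopologicalSpace Z] {O : ℕ → ℕ → Set Z}
    (hO : ∀ n m, IsOpen (O n m)) (m M : ℕ) : IsOpen (Cond O m M) := by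
  have h1 : IsOpen {q : TT Z | q.2.2 = true} := by
    have : IsOpen ((fun q : TT Z => q.2.2) ⁻¹' {true}) :=
      (isOpen_discrete _).preimage (continuous_snd.comp continuous_snd)
    exact this
  have h2 : IsOpen {q : TT Z | q.2.2 = false} := by
    have : IsOpen ((fun q : TT Z => q.2.2) ⁻¹' {false}) :=
      (isOpen_discrete _).preimage (continuous_snd.comp continuous_snd)
    exact this
  have h3 : ∀ k, IsOpen {q : TT Z | q.2.1 m = k} := by
    intro k
    have hcont : Continuous (fun q : TT Z => q.2.1 m) :=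
      (continuous_apply m).comp (continuous_fst.comp continuous_snd)
    have : IsOpen ((fun q : TT Z => q.2.1 m) ⁻¹' {k}) := (isOpen_discrete _).preimage hcont
    exact this
  have h4 : IsOpen {q : TT Z | q.1 ∈ O m (q.2.1 m)} := by
    have : {q : TT Z | q.1 ∈ O m (q.2.1 m)} =
        ⋃ k, ({q : TT Z | q.2.1 m = k} ∩ {q : TT Z | q.1 ∈ O m k}) := by
      ext q
      simp only [mem_iUnion, mem_inter_iff, mem_ofPred_eq]
      constructor
      · intro h
        exact ⟨_, rfl, h⟩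
      · rintro ⟨k, hk, h⟩
        rw [hk]
        exact h
    rw [this]
    exact isOpen_iUnion fun k => (h3 k).inter ((hO m k).preimage continuous_fst)
  exact (h1.inter h4).union (h2.inter ((hO m M).preimage continuous_fst))

/-- The open sets of the stage. -/
def OO {Z : Type} (O : ℕ → ℕ → Set Z) (j n M : ℕ) : Set (Fin j → TT Z) :=
  {p | ∃ m, n ≤ m ∧ m ≤ M ∧ ∀ l, p l ∈ Cond O m M}

theorem isOpen_OO {Z : Type} [TopologicalSpace Z] {O : ℕ → ℕ → Set Z}
    (hO : ∀ n m, IsOpen (O n m)) (j n M : ℕ) : IsOpen (OO O j n M) := by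
  have : OO O j n M = ⋃ m, ⋃ (_ : n ≤ m ∧ m ≤ M), ⋂ l : Fin j,
      (fun p : Fin j → TT Z => p l) ⁻¹' Cond O m M := by
    ext p
    simp only [OO, mem_ofPred_eq, mem_iUnion, mem_iInter, mem_preimage]
    constructor
    · rintro ⟨m, h1, h2, h3⟩
      exact ⟨m, ⟨h1, h2⟩, h3⟩
    · rintro ⟨m, ⟨h1, h2⟩, h3⟩
      exact ⟨m, h1, h2, h3⟩
  rw [this]
  exact isOpen_iUnion fun m => isOpen_iUnion fun _ => isOpen_iInter_of_finite fun l =>
    (isOpen_Cond hO m M).preimage (continuous_apply l)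

theorem Cond_mono {Z : Type} {O : ℕ → ℕ → Set Z} (hm : ∀ n, Monotone (O n)) (m : ℕ) :
    Monotone (Cond O m) := by
  rintro M M' h q (⟨h1, h2⟩ | ⟨h1, h2⟩)
  · exact Or.inl ⟨h1, h2⟩
  · exact Or.inr ⟨h1, hm m h h2⟩

theorem OO_mono {Z : Type} {O : ℕ → ℕ → Set Z} (hm : ∀ n, Monotone (O n)) (j n : ℕ) :
    Monotone (OO O j n) := by
  rintro M M' h p ⟨m, h1, h2, h3⟩
  exact ⟨m, h1, h2.trans h, fun l => Cond_mono hm m h (h3 l)⟩

/-- The finite intersection property with triples whose second index is in `D`. -/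
def Inv {Z ι : Type} [LT ι] (A : ι → Set Z) (O : ℕ → ℕ → Set Z) (g : ι → ℕ → ℕ) (D : Set ι) :
    Prop :=
  ∀ (K : Type) [Finite K] (b c : K → ι) (z : K → Z),
    (∀ l, b l < c l ∧ c l ∈ D ∧ z l ∈ A (b l)) → ∀ N, ∃ m, N ≤ m ∧ ∀ l, z l ∈ O m (g (c l) m)

/-- One step of the recursion. -/
theorem stage {Z ι : Type} [TopologicalSpace Z] [LinearOrder ι] {A : ι → Set Z}
    {O : ℕ → ℕ → Set Z} (hO : ∀ n m, IsOpen (O n m)) (hm : ∀ n, Monotone (O n))
    (hc : ∀ n, ∀ z ∈ ⋃ i, A i, ∃ m, z ∈ O n m) (a : ι) (g : ι → ℕ → ℕ)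
    (hg : Inv A O g (Iio a))
    (hJ : ∀ (β : {q : Iio a × Iio a // q.1 < q.2} ⊕ Iio a → ι)
      (γ : {q : Iio a × Iio a // q.1 < q.2} ⊕ Iio a → (ℕ → ℕ) × Bool) (j : ℕ),
      MBS (⋃ s, deco A β γ j s)) :
    ∃ v : ℕ → ℕ, ∀ g' : ι → ℕ → ℕ, (∀ c < a, g' c = g c) → g' a = v → Inv A O g' (Iic a) := by
  classical
  let J : Type := {q : Iio a × Iio a // q.1 < q.2} ⊕ Iio a
  let β : J → ι := Sum.elim (fun q => (q.1.1 : ι)) (fun b => (b : ι))
  let γ : J → (ℕ → ℕ) × Bool := Sum.elim (fun q => (g q.1.2, true)) (fun _ => (0, false))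
  have hJ1 : ∀ s : J, (γ s).2 = true → ∃ c, β s < c ∧ c < a ∧ (γ s).1 = g c := by
    rintro (q | b) h
    · exact ⟨q.1.2, q.2, q.1.2.2, rfl⟩
    · exact absurd h (by simp [γ])
  have hcov : ∀ j n, ∀ p ∈ ⋃ s, deco A β γ j s, ∃ M, p ∈ OO O j n M := by
    intro j n p hp
    obtain ⟨s, hs⟩ := mem_iUnion.1 hp
    have h1 : ∀ l : {l : Fin j // (γ (s l)).2 = true}, ∃ c, β (s l) < c ∧ c < a ∧
        (γ (s l)).1 = g c := fun l => hJ1 (s l) l.2
    choose c hc1 hc2 hc3 using h1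
    obtain ⟨m, hnm, hml⟩ := hg {l : Fin j // (γ (s l)).2 = true} (fun l => β (s l)) c
      (fun l => (p l).1) (fun l => ⟨hc1 l, hc2 l, (hs l).1⟩) n
    have h2 : ∀ l, ∃ M, (p l).1 ∈ O m M := fun l =>
      hc m _ (mem_iUnion.2 ⟨β (s l), (hs l).1⟩)
    choose M hM using h2
    refine ⟨max m (Finset.univ.sup M), m, hnm, le_max_left _ _, fun l => ?_⟩
    cases hl : (p l).2.2
    · refine Or.inr ⟨hl, hm m ?_ (hM l)⟩
      exact (Finset.le_sup (Finset.mem_univ l)).trans (le_max_right _ _)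
    · refine Or.inl ⟨hl, ?_⟩
      have hl' : (γ (s l)).2 = true := by rw [← (hs l).2]; exact hl
      have h3 := hml ⟨l, hl'⟩
      rw [(hs l).2, hc3 ⟨l, hl'⟩]
      exact h3
  have hfreq : ∀ j, ∃ G : ℕ → ℕ, ∀ p ∈ ⋃ s, deco A β γ j s, ∀ N, ∃ n, N ≤ n ∧
      p ∈ OO O j n (G n) := fun j =>
    (hJ β γ j).frequently _ (isOpen_OO hO j) (OO_mono hm j) (hcov j)
  choose G hG using hfreq
  refine ⟨fun m => (Finset.range (m + 1)).sup fun j => (Finset.range (m + 1)).sup fun n => G j n,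
    fun g' hg1 hg2 => ?_⟩
  intro K _ b c z hK N
  obtain ⟨k, ⟨e⟩⟩ := Finite.exists_equiv_fin K
  have hs : ∀ l : Fin k, ∃ s : J, β s = b (e.symm l) ∧
      ((c (e.symm l) < a ∧ γ s = (g (c (e.symm l)), true)) ∨
        (c (e.symm l) = a ∧ γ s = (0, false))) := by
    intro l
    obtain ⟨h1, h2, -⟩ := hK (e.symm l)
    rcases (show c (e.symm l) ≤ a from h2).lt_or_eq with h3 | h3
    · exact ⟨Sum.inl ⟨(⟨b (e.symm l), h1.trans h3⟩, ⟨c (e.symm l), h3⟩), h1⟩, rfl,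
        Or.inl ⟨h3, rfl⟩⟩
    · exact ⟨Sum.inr ⟨b (e.symm l), h3 ▸ h1⟩, rfl, Or.inr ⟨h3, rfl⟩⟩
  choose s hs1 hs2 using hs
  have hp : (fun l => (z (e.symm l), γ (s l)) : Fin k → TT Z) ∈ ⋃ s, deco A β γ k s := by
    refine mem_iUnion.2 ⟨s, fun l => ⟨?_, rfl⟩⟩
    rw [hs1]
    exact (hK (e.symm l)).2.2
  obtain ⟨n, hn, m, hnm, hmG, hcond⟩ := hG k _ hp (max N k)
  refine ⟨m, (le_max_left _ _).trans (hn.trans hnm), fun l => ?_⟩
  obtain ⟨i, rfl⟩ := e.symm.surjective l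
  have hi := hcond i
  rcases hs2 i with ⟨h1, h2⟩ | ⟨h1, h2⟩
  · rw [hg1 _ h1]
    rcases hi with ⟨h3, h4⟩ | ⟨h3, h4⟩
    · simp only [h2] at h4
      exact h4
    · simp [h2] at h3
  · rw [h1, hg2]
    rcases hi with ⟨h3, h4⟩ | ⟨h3, h4⟩
    · simp [h2] at h3
    · refine hm m ?_ h4
      have hkm : k < m + 1 := Nat.lt_succ_of_le ((le_max_right N k).trans (hn.trans hnm))
      have hnm' : n < m + 1 := Nat.lt_succ_of_le hnm
      have h5 : G k n ≤ (Finset.range (m + 1)).sup fun n => G k n :=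
        Finset.le_sup (f := fun n => G k n) (Finset.mem_range.2 hnm')
      exact h5.trans (Finset.le_sup (f := fun j => (Finset.range (m + 1)).sup fun n => G j n)
        (Finset.mem_range.2 hkm))

end Pool.Agent.Lib.MP_10f401_gt
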